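import Mathlib
import Pool.Agent.Helper549.SFComplete

set_option autoImplicit false

open Finset

namespace Pool.Agent.Results.MP_473a0d_co.CompleteSolution

open Pool.Agent.Helper549

/-- The exact value of `μ(G,[0,2])` for every finite abelian group `G` (cyclic or not) of order
`n` and exponent `κ`.
* If some prime `≡ 3 mod 4` divides `n` and `p` is the least one, `μ = (1 + 1/p) n / 4`.
* Otherwise, if `4` divides `κ`, `μ = n / 4`.
* Otherwise, if `κ ≡ 2 mod 4`, `μ = (n - t) / 4` where `t` is the number of `x` with `x + x = 0`.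
* Otherwise (`κ` odd, so all prime divisors are `≡ 1 mod 4`), `μ = (κ - 1) n / (4 κ)`. -/
theorem result (G : Type*) [AddCommGroup G] [Fintype G] [DecidableEq G] :
    (∀ p : ℕ, p.Prime → p % 4 = 3 → p ∣ Fintype.card G →
        (∀ q : ℕ, q.Prime → q % 4 = 3 → q ∣ Fintype.card G → p ≤ q) →
        4 * p * mu G = (p + 1) * Fintype.card G) ∧
    ((∀ q : ℕ, q.Prime → q ∣ Fintype.card G → q % 4 ≠ 3) →
      (4 ∣ AddMonoid.exponent G → 4 * mu G = Fintype.card G) ∧
      (AddMonoid.exponent G % 4 = 2 →
        4 * mu G + (univ.filter (fun x : G => x + x = 0)).card = Fintype.card G) ∧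
      (AddMonoid.exponent G % 2 = 1 →
        4 * AddMonoid.exponent G * mu G = (AddMonoid.exponent G - 1) * Fintype.card G)) :=
  ⟨fun p hp hp3 hpn hmin => mu_three p hp hp3 hpn hmin,
    fun hno => ⟨mu_four hno, mu_two hno, mu_odd_exact hno⟩⟩

end Pool.Agent.Results.MP_473a0d_co.CompleteSolution
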