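import Mathlib
import Pool.Agent.Helper549.SFMu

set_option autoImplicit false

open Finset

namespace Pool.Agent.Results.MP_473a0d_co.KneserValues

open Pool.Agent.Helper549

/-- Exact value of `μ(G,[0,2])` for every finite abelian group `G` whose order has a prime divisor
not congruent to `1` modulo `4`, and two-sided bounds (which agree when `G` is cyclic) for the
remaining groups.
* If some prime `≡ 3 mod 4` divides `|G|` and `p` is the least one, `μ = (1 + 1/p) |G| / 4`.
* Otherwise, if `4` divides the exponent, `μ = |G| / 4`.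
* Otherwise, if the exponent is `≡ 2 mod 4`, `μ = (|G| - |{x : 2x = 0}|) / 4`.
* Otherwise (all prime divisors `≡ 1 mod 4`), `(κ - 1)|G| / (4κ) ≤ μ ≤ (|G| - 1) / 4`, where
  `κ` is the exponent. -/
theorem result (G : Type*) [AddCommGroup G] [Fintype G] [DecidableEq G] :
    (∀ p : ℕ, p.Prime → p % 4 = 3 → p ∣ Fintype.card G →
        (∀ q : ℕ, q.Prime → q % 4 = 3 → q ∣ Fintype.card G → p ≤ q) →
        4 * p * mu G = (p + 1) * Fintype.card G) ∧
    ((∀ q : ℕ, q.Prime → q ∣ Fintype.card G → q % 4 ≠ 3) →
      (4 ∣ AddMonoid.exponent G → 4 * mu G = Fintype.card G) ∧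
      (AddMonoid.exponent G % 4 = 2 →
        4 * mu G + (univ.filter (fun x : G => x + x = 0)).card = Fintype.card G) ∧
      (AddMonoid.exponent G % 2 = 1 →
        (AddMonoid.exponent G - 1) * Fintype.card G ≤ 4 * AddMonoid.exponent G * mu G ∧
        4 * mu G + 1 ≤ Fintype.card G)) :=
  ⟨fun p hp hp3 hpn hmin => mu_three p hp hp3 hpn hmin,
    fun hno => ⟨mu_four hno, mu_two hno, mu_odd hno⟩⟩

end Pool.Agent.Results.MP_473a0d_co.KneserValues
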